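import Pool.Agent.Helper22.TW.Stmts

set_option autoImplicit false

namespace Pool.Agent.Helper22.TW

open Pool.Agent.Helper14.BSC Polynomial

theorem ffc_galois (k Ω : Type) [Field k] [Field Ω] [Algebra k Ω] [CharZero k] [IsAlgClosed Ω]
    (S : Set (Acl k Ω)) (c : Acl k Ω) (hc : c ∈ FF S) : c ∈ IntermediateField.adjoin k S := by
  have : IsAlgClosure k (Acl k Ω) := inferInstance
  have : Normal k (Acl k Ω) := inferInstance
  have : Algebra.IsAlgebraic k (Acl k Ω) := inferInstance
  have : Algebra.IsSeparable k (Acl k Ω) := inferInstance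
  have : IsGalois k (Acl k Ω) := ⟨⟩
  rw [← InfiniteGalois.fixedField_fixingSubgroup (IntermediateField.adjoin k S)]
  rw [IntermediateField.mem_fixedField_iff]
  intro g hg
  apply hc g
  intro a ha
  rw [IntermediateField.mem_fixingSubgroup_iff] at hg
  exact hg a (IntermediateField.subset_adjoin k S ha)

theorem st_FFC (hT : ST_TRB) (hFr : ST_FRAC) : ST_FFC := by
  intro F k Ω _ _ _ _ _ _ _ _ _ t hG c hc
  have : CharZero k := charZero_of_injective_algebraMap (algebraMap F k).injective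
  have h1 := ffc_galois k Ω (KS F k Ω) c hc
  clear hc
  induction h1 using IntermediateField.adjoin_induction with
  | mem x hx =>
    refine ⟨C ⟨(x : Ω), mem_algebraicClosure_iff.2 hx⟩, 1, one_ne_zero, ?_⟩
    rw [map_one, mul_one, aeval_C]
    rfl
  | algebraMap x =>
    obtain ⟨A, B, hB0, hB, hx⟩ := hFr F k t hG x
    refine ⟨A.map (algebraMap F (Acl F Ω)), B.map (algebraMap F (Acl F Ω)), ?_, ?_⟩
    · rwa [Ne, Polynomial.map_eq_zero]
    · rw [aeval_map_algebraMap, aeval_map_algebraMap]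
      have h2 : ∀ P : F[X], aeval (algebraMap k Ω t) P = algebraMap k Ω (aeval t P) := fun P => by
        rw [aeval_algebraMap_apply]
      rw [h2, h2]
      have h3 : ((algebraMap k (Acl k Ω) x : Acl k Ω) : Ω) = algebraMap k Ω x := rfl
      rw [h3, ← map_mul, hx, div_mul_cancel₀ _ hB]
  | add x y _ _ hx hy =>
    obtain ⟨A, B, hB, h2⟩ := hx
    obtain ⟨A', B', hB', h3⟩ := hy
    refine ⟨A * B' + A' * B, B * B', mul_ne_zero hB hB', ?_⟩
    have h4 : ((x + y : Acl k Ω) : Ω) = (x : Ω) + (y : Ω) := rfl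
    rw [h4, map_add, map_mul, map_mul, map_mul]
    linear_combination (aeval (algebraMap k Ω t) B') * h2 + (aeval (algebraMap k Ω t) B) * h3
  | inv x _ hx =>
    obtain ⟨A, B, hB, h2⟩ := hx
    have h4 : ((x⁻¹ : Acl k Ω) : Ω) = (x : Ω)⁻¹ := rfl
    by_cases hx0 : (x : Ω) = 0
    · refine ⟨0, 1, one_ne_zero, ?_⟩
      rw [h4, hx0, inv_zero, zero_mul, map_zero]
    · have hA : A ≠ 0 := by
        rintro rfl
        rw [map_zero] at h2
        rcases mul_eq_zero.1 h2 with h5 | h5
        · exact hx0 h5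
        · exact hT F k Ω t hG B hB h5
      refine ⟨B, A, hA, ?_⟩
      rw [h4, ← h2, inv_mul_cancel_left₀ hx0]
  | mul x y _ _ hx hy =>
    obtain ⟨A, B, hB, h2⟩ := hx
    obtain ⟨A', B', hB', h3⟩ := hy
    refine ⟨A * A', B * B', mul_ne_zero hB hB', ?_⟩
    have h4 : ((x * y : Acl k Ω) : Ω) = (x : Ω) * (y : Ω) := rfl
    rw [h4, map_mul, map_mul, ← h2, ← h3]
    ring

end Pool.Agent.Helper22.TW
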