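import Pool.Agent.Helper22.TW.Stmts

set_option autoImplicit false

namespace Pool.Agent.Helper22.TW

open Pool.Agent.Helper14.BSC Polynomial

theorem halft_aux {M : Type} [Field M] (a b c x y x₃ : M) (hy : y ≠ 0)
    (h : y ^ 2 = (x - a) * (x - b) * (x - c)) (hb : IsSquare ((x - b) * (a - b)))
    (hc : IsSquare ((x - c) * (a - c))) (h3 : x₃ = ((y - 0) / (x - a)) ^ 2 + (a + b + c) - x - a) :
    IsSquare (x₃ - a) ∧ IsSquare (x₃ - b) ∧ IsSquare (x₃ - c) := by
  obtain ⟨u, hu⟩ := hb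
  obtain ⟨w, hw⟩ := hc
  have hxa : x - a ≠ 0 := by
    intro h0
    rw [h0, zero_mul, zero_mul] at h
    exact hy (pow_eq_zero_iff (two_ne_zero) |>.1 h)
  have hxb : x - b ≠ 0 := by
    intro h0
    rw [h0, mul_zero, zero_mul] at h
    exact hy (pow_eq_zero_iff (two_ne_zero) |>.1 h)
  have hxc : x - c ≠ 0 := by
    intro h0
    rw [h0, mul_zero] at h
    exact hy (pow_eq_zero_iff (two_ne_zero) |>.1 h)
  have h4 : ((y - 0) / (x - a)) ^ 2 = (x - b) * (x - c) / (x - a) := by
    rw [sub_zero, div_pow, h]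
    field_simp
  rw [h4] at h3
  have h5 : x₃ - a = (a - b) * (a - c) / (x - a) := by
    rw [h3]
    field_simp
    ring
  have h6 : x₃ - b = (a - b) * (x - c) / (x - a) := by
    rw [h3]
    field_simp
    ring
  have h7 : x₃ - c = (a - c) * (x - b) / (x - a) := by
    rw [h3]
    field_simp
    ring
  refine ⟨⟨u * w / y, ?_⟩, ⟨u * (x - c) / y, ?_⟩, ⟨w * (x - b) / y, ?_⟩⟩
  · rw [h5, div_mul_div_comm, ← sq y, h, div_eq_div_iff hxa (by simp [hxa, hxb, hxc])]
    linear_combination (x - a) * ((x - c) * (a - c)) * hu + (x - a) * (u * u) * hw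
  · rw [h6, div_mul_div_comm, ← sq y, h, div_eq_div_iff hxa (by simp [hxa, hxb, hxc])]
    linear_combination (x - a) * (x - c) * (x - c) * hu
  · rw [h7, div_mul_div_comm, ← sq y, h, div_eq_div_iff hxa (by simp [hxa, hxb, hxc])]
    linear_combination (x - a) * (x - b) * (x - b) * hw

theorem st_HALFT (hH : ST_HALF) : ST_HALFT := by
  intro M _ _ e he x y h hy i hsq
  have hx : x ≠ e i := by
    rintro rfl
    unfold Eqn at h
    apply hy
    have h1 : y ^ 2 = 0 := by
      rw [h]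
      fin_cases i <;> simp
    exact pow_eq_zero_iff (two_ne_zero) |>.1 h1
  obtain ⟨x₃, y₃, h₃, hadd, hx₃, -⟩ := EE.add_of_x_ne he h (Eqn.root (e := e) i) hx
  rw [hadd]
  apply hH M e he x₃ y₃ h₃
  unfold Eqn at h
  fin_cases i
  · have h1 := halft_aux (e 0) (e 1) (e 2) x y x₃ hy h (hsq 1 (by decide)) (hsq 2 (by decide)) hx₃
    intro j
    fin_cases j
    · exact h1.1
    · exact h1.2.1
    · exact h1.2.2
  · have h1 := halft_aux (e 1) (e 0) (e 2) x y x₃ hy (by rw [h]; ring) (hsq 0 (by decide))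
      (hsq 2 (by decide)) (by rw [hx₃]; simp only [Fin.mk_one, Fin.isValue]; ring)
    intro j
    fin_cases j
    · exact h1.2.1
    · exact h1.1
    · exact h1.2.2
  · have h1 := halft_aux (e 2) (e 0) (e 1) x y x₃ hy (by rw [h]; ring) (hsq 0 (by decide))
      (hsq 1 (by decide)) (by rw [hx₃]; simp only [Fin.reduceFinMk, Fin.isValue]; ring)
    intro j
    fin_cases j
    · exact h1.2.1
    · exact h1.2.2
    · exact h1.1

end Pool.Agent.Helper22.TW
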