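import Pool.Agent.Helper22.TW.Stmts

set_option autoImplicit false

namespace Pool.Agent.Helper22.TW

open Pool.Agent.Helper14.BSC Polynomial

theorem lcf_pow {G G' : Type} [AddCommGroup G] [AddCommGroup G'] (sp : G → G')
    (h : ∀ R, sp (R + R) = sp R + sp R) (m : ℕ) : ∀ R, sp ((2 ^ m) • R) = (2 ^ m) • sp R := by
  induction m with
  | zero =>
    intro R
    rw [pow_zero, one_smul, one_smul]
  | succ n ih =>
    intro R
    have h1 : (2 ^ (n + 1)) • R = (2 ^ n) • R + (2 ^ n) • R := by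
      rw [pow_succ, mul_two, add_smul]
    have h2 : (2 ^ (n + 1)) • sp R = (2 ^ n) • sp R + (2 ^ n) • sp R := by
      rw [pow_succ, mul_two, add_smul]
    rw [h1, h, ih, h2]

theorem lcf_div {G G' : Type} [AddCommGroup G] [AddCommGroup G'] (sp : G → G')
    (h : ∀ R, sp (R + R) = sp R + sp R) {P : G} (hP : InfDiv P) : InfDiv (sp P) := by
  intro m
  obtain ⟨Q, hQ⟩ := hP m
  exact ⟨sp Q, by rw [← lcf_pow sp h, hQ]⟩

theorem st_LCF (hNOD : ST_NOD) (hPSI : ST_PSI) (hSPEC : ST_SPEC) (hCNT : ST_CNT) : ST_LCF := by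
  intro F k Ω _ _ _ _ _ _ _ _ _ t hG D e _ he f y h hdiv σ E hfin hE
  obtain ⟨hPm, hPn, hPe⟩ := hPSI
  have hinj : ∀ (σ' : k →+* ℂ_[2]) (hE' : ∀ x, σ' x ∈ E),
      Function.Injective (fun i => (⟨σ' (aeval t (e i)), hE' _⟩ : E)) := by
    intro σ' hE' i j hij
    have h1 : σ' (aeval t (e i)) = σ' (aeval t (e j)) := congrArg Subtype.val hij
    have h2 := σ'.injective h1
    apply he
    change algebraMap k (NN D ∅) (aeval t (e i)) = algebraMap k (NN D ∅) (aeval t (e j))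
    rw [h2]
  obtain ⟨ε₀, hε₀, J, hJ, hN⟩ := hNOD E hfin (fun i => ⟨σ (aeval t (e i)), hE _⟩) (hinj σ hE)
  choose ε hε hε' using fun i => hCNT F k t hG (aeval t (e i)) 2 σ ε₀ hε₀
  refine ⟨min (ε 0) (min (ε 1) (ε 2)), Psi (fun i => aeval t (e i)) J,
    lt_min (hε 0) (lt_min (hε 1) (hε 2)), hPn k _ J hJ, ?_⟩
  intro σ' hσ' hE' hlt P' hf
  have hnear : ∀ i, ‖σ' (aeval t (e i)) - σ (aeval t (e i))‖ < ε₀ := by
    intro i
    refine hε' i σ' hσ' (hlt.trans_le ?_)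
    fin_cases i
    · exact min_le_left _ _
    · exact (min_le_right _ _).trans (min_le_left _ _)
    · exact (min_le_right _ _).trans (min_le_right _ _)
  obtain ⟨sp, _, hdbl, hsp⟩ := hSPEC k Ω D 2 σ' E hfin hE' P' (fun i => aeval t (e i)) he
    (fun i => ⟨σ' (aeval t (e i)), hE' _⟩) (hinj σ' hE') (fun i => rfl)
  have h1 : InfDiv (sp (EE.pt he f y h)) := lcf_div sp hdbl hdiv
  have h2 := hN (fun i => ⟨σ' (aeval t (e i)), hE' _⟩) (hinj σ' hE') hnear _ h1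
  obtain ⟨x₀, y₀, h₀, h3, h4⟩ := (hsp f y h).2 hf
  have h3' : sp (EE.pt he f y h) = EE.pt (hinj σ' hE') x₀ y₀ h₀ := h3
  rw [h3'] at h2
  have h5 := hPe E _ (hinj σ' hE') J hJ x₀ y₀ h₀ h2
  rw [hPm, ← h4]
  have h6 := congrArg (algebraMap E ℂ_[2]) h5
  rw [map_zero, ← eval₂_at_apply, ← eval_map, hPm] at h6
  exact h6

end Pool.Agent.Helper22.TW
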