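import Pool.Agent.Helper22.TW.Stmts

set_option autoImplicit false

namespace Pool.Agent.Helper22.TW

open Polynomial

theorem rc_prod {F K : Type} [Field F] [NormedField K] (σ₀ : F →+* K) (ξ : K) (c : ℝ)
    (hc : 0 ≤ c) (s : Multiset F) : (∀ l ∈ s, c ≤ ‖ξ - σ₀ l‖) →
    c ^ (Multiset.card s) ≤ ‖(s.map (fun l => ξ - σ₀ l)).prod‖ := by
  induction s using Multiset.induction_on with
  | empty =>
    intro _
    simp
  | cons a s ih =>
    intro h
    rw [Multiset.card_cons, Multiset.map_cons, Multiset.prod_cons, norm_mul, pow_succ']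
    exact mul_le_mul (h a (Multiset.mem_cons_self a s))
      (ih fun l hl => h l (Multiset.mem_cons_of_mem hl)) (pow_nonneg hc _) (norm_nonneg _)

theorem rc_eval {F K : Type} [Field F] [NormedField K] (σ₀ : F →+* K) (P : F[X]) (hs : P.Splits)
    (ξ : K) : P.eval₂ σ₀ ξ = σ₀ P.leadingCoeff * (P.roots.map (fun l => ξ - σ₀ l)).prod := by
  have h := hs.eq_prod_roots
  conv_lhs => rw [h]
  rw [eval₂_mul, eval₂_C, eval₂_multiset_prod, Multiset.map_map]
  congr 3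
  funext l
  simp

/-- if the value of `P` at `ξ` is small compared with `max 1 ‖ξ‖ ^ n`, then `ξ` is near a root -/
theorem rc_near {F K : Type} [Field F] [NormedField K] [IsUltrametricDist K] (σ₀ : F →+* K)
    (P : F[X]) (hs : P.Splits) (hP : P ≠ 0) (η : ℝ) (hη : 0 < η) :
    ∃ δ : ℝ, 0 < δ ∧ ∀ (g : ℕ → K) (ξ : K), (∀ i, ‖g i‖ ≤ δ) →
      P.eval₂ σ₀ ξ = ∑ i ∈ Finset.range (P.natDegree + 1), g i * ξ ^ i →
      ∃ l ∈ P.roots, ‖ξ - σ₀ l‖ < η := by
  classical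
  obtain ⟨R, hR1, hR⟩ : ∃ R : ℝ, 1 ≤ R ∧ ∀ l ∈ P.roots, ‖σ₀ l‖ ≤ R := by
    refine ⟨1 + ∑ l ∈ P.roots.toFinset, ‖σ₀ l‖, ?_, ?_⟩
    · have : 0 ≤ ∑ l ∈ P.roots.toFinset, ‖σ₀ l‖ := Finset.sum_nonneg fun l _ => norm_nonneg _
      linarith
    · intro l hl
      have h1 : ‖σ₀ l‖ ≤ ∑ l ∈ P.roots.toFinset, ‖σ₀ l‖ :=
        Finset.single_le_sum (f := fun l => ‖σ₀ l‖) (fun l _ => norm_nonneg _)
          (Multiset.mem_toFinset.2 hl)
      linarith
  have hR0 : 0 < R := by linarith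
  set η₁ : ℝ := min η 1 with hη₁
  have hη₁0 : 0 < η₁ := lt_min hη one_pos
  have hη₁1 : η₁ ≤ 1 := min_le_right _ _
  have hq : 0 < η₁ / R := div_pos hη₁0 hR0
  set n := P.natDegree with hn
  have hlead : 0 < ‖σ₀ P.leadingCoeff‖ := by
    rw [norm_pos_iff]
    intro h
    exact hP (leadingCoeff_eq_zero.1 ((map_eq_zero σ₀).1 h))
  refine ⟨‖σ₀ P.leadingCoeff‖ * (η₁ / R) ^ n / 2, by positivity, ?_⟩
  intro g ξ hg hsum
  by_contra hcon
  push Not at hcon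
  set m : ℝ := max 1 ‖ξ‖ with hm
  have hm1 : 1 ≤ m := le_max_left _ _
  have hm0 : 0 < m := by linarith
  have hlow : ∀ l ∈ P.roots, η₁ / R * m ≤ ‖ξ - σ₀ l‖ := by
    intro l hl
    have h1 := hcon l hl
    by_cases hξ : ‖ξ‖ ≤ R
    · have h2 : m ≤ R := max_le hR1 hξ
      have h3 : η₁ / R * m ≤ η₁ := by
        calc η₁ / R * m ≤ η₁ / R * R := mul_le_mul_of_nonneg_left h2 hq.le
          _ = η₁ := div_mul_cancel₀ _ hR0.ne'
      exact h3.trans ((min_le_left _ _).trans h1)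
    · push Not at hξ
      have h2 : ‖σ₀ l‖ < ‖ξ‖ := (hR l hl).trans_lt hξ
      have h3 : ‖ξ - σ₀ l‖ = ‖ξ‖ := by
        have h4 : ‖ξ - σ₀ l‖ = max ‖ξ‖ ‖-σ₀ l‖ := by
          rw [sub_eq_add_neg]
          apply IsUltrametricDist.norm_add_eq_max_of_norm_ne_norm
          rw [norm_neg]
          exact h2.ne'
        rw [h4, norm_neg, max_eq_left h2.le]
      rw [h3]
      have h4 : m = ‖ξ‖ := max_eq_right (by linarith)
      rw [h4]
      have h5 : η₁ / R ≤ 1 := by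
        rw [div_le_one hR0]
        linarith
      calc η₁ / R * ‖ξ‖ ≤ 1 * ‖ξ‖ := mul_le_mul_of_nonneg_right h5 (norm_nonneg _)
        _ = ‖ξ‖ := one_mul _
  have h1 : ‖P.eval₂ σ₀ ξ‖ ≥ ‖σ₀ P.leadingCoeff‖ * (η₁ / R * m) ^ n := by
    rw [rc_eval σ₀ P hs ξ, norm_mul]
    have h2 := rc_prod σ₀ ξ (η₁ / R * m) (by positivity) P.roots hlow
    rw [← hs.natDegree_eq_card_roots] at h2
    exact mul_le_mul_of_nonneg_left h2 (norm_nonneg _)
  have h2 : ‖P.eval₂ σ₀ ξ‖ ≤ ‖σ₀ P.leadingCoeff‖ * (η₁ / R) ^ n / 2 * m ^ n := by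
    rw [hsum]
    apply IsUltrametricDist.norm_sum_le_of_forall_le_of_nonneg (by positivity)
    intro i hi
    rw [norm_mul, norm_pow]
    have h3 : ‖ξ‖ ^ i ≤ m ^ n := by
      calc ‖ξ‖ ^ i ≤ m ^ i := pow_le_pow_left₀ (norm_nonneg _) (le_max_right _ _) _
        _ ≤ m ^ n := pow_le_pow_right₀ hm1 (by rw [Finset.mem_range] at hi; omega)
    exact mul_le_mul (hg i) h3 (by positivity) (by positivity)
  rw [mul_pow] at h1
  have h3 : 0 < ‖σ₀ P.leadingCoeff‖ * (η₁ / R) ^ n * m ^ n := by positivity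
  nlinarith

/-- the divided difference of the polynomial `H(τ, ·)` -/
noncomputable def rc_Q {F K : Type} [Field F] [Field K] (σ₀ : F →+* K) (H : F[X][X])
    (τ α ξ : K) : K :=
  ∑ i ∈ Finset.range (H.natDegree + 1), (H.coeff i).eval₂ σ₀ τ *
    ∑ j ∈ Finset.range i, α ^ j * ξ ^ (i - 1 - j)

theorem rc_Q_mul {F K : Type} [Field F] [Field K] (σ₀ : F →+* K) (H : F[X][X]) (τ α ξ : K) :
    rc_Q σ₀ H τ α ξ * (α - ξ) =
      (∑ i ∈ Finset.range (H.natDegree + 1), (H.coeff i).eval₂ σ₀ τ * α ^ i) -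
      ∑ i ∈ Finset.range (H.natDegree + 1), (H.coeff i).eval₂ σ₀ τ * ξ ^ i := by
  unfold rc_Q
  rw [Finset.sum_mul, ← Finset.sum_sub_distrib]
  refine Finset.sum_congr rfl fun i _ => ?_
  rw [mul_assoc, geom_sum₂_mul]
  ring

theorem rc_coe {F : Type} [Field F] (H : F[X][X]) (v : F) (i : ℕ) :
    (H.map (evalRingHom v)).coeff i = (H.coeff i).eval v := by
  rw [coeff_map]
  rfl

theorem rc_Q_der {F K : Type} [Field F] [Field K] (σ₀ : F →+* K) (H : F[X][X]) (v l : F) :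
    rc_Q σ₀ H (σ₀ v) (σ₀ l) (σ₀ l) = σ₀ ((H.map (evalRingHom v)).derivative.eval l) := by
  have h1 : (H.map (evalRingHom v)).derivative.eval l =
      ∑ i ∈ Finset.range (H.natDegree + 1), (H.coeff i).eval v * i * l ^ (i - 1) := by
    rw [derivative_eval, sum_over_range' _ _ (H.natDegree + 1)]
    · refine Finset.sum_congr rfl fun i _ => ?_
      rw [rc_coe]
    · exact Nat.lt_succ_of_le natDegree_map_le
    · intro n
      simp
  rw [h1, map_sum]
  unfold rc_Q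
  refine Finset.sum_congr rfl fun i _ => ?_
  rw [geom_sum₂_self, map_mul, map_mul, map_natCast, map_pow, eval₂_at_apply]
  ring

theorem rc_Q_cont {F K : Type} [Field F] [NormedField K] (σ₀ : F →+* K) (H : F[X][X]) :
    Continuous fun q : K × K × K => rc_Q σ₀ H q.1 q.2.1 q.2.2 := by
  unfold rc_Q
  refine continuous_finsetSum _ fun i _ => ?_
  refine Continuous.mul ?_ ?_
  · exact ((H.coeff i).continuous_eval₂ σ₀).comp continuous_fst
  · refine continuous_finsetSum _ fun j _ => ?_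
    exact ((continuous_fst.comp continuous_snd).pow _).mul
      ((continuous_snd.comp continuous_snd).pow _)

/-- the norm of the divided difference is locally constant -/
theorem rc_Q_near {F K : Type} [Field F] [NormedField K] [IsUltrametricDist K] (σ₀ : F →+* K)
    (H : F[X][X]) (v l : F) (h0 : (H.map (evalRingHom v)).derivative.eval l ≠ 0) :
    ∃ η : ℝ, 0 < η ∧ ∀ τ α ξ : K, ‖τ - σ₀ v‖ < η → ‖α - σ₀ l‖ < η → ‖ξ - σ₀ l‖ < η →
      ‖rc_Q σ₀ H τ α ξ‖ = ‖σ₀ ((H.map (evalRingHom v)).derivative.eval l)‖ := by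
  have hpos : 0 < ‖σ₀ ((H.map (evalRingHom v)).derivative.eval l)‖ := by
    rw [norm_pos_iff]
    exact fun h => h0 ((map_eq_zero σ₀).1 h)
  have hc := (rc_Q_cont σ₀ H (K := K)).continuousAt (x := (σ₀ v, σ₀ l, σ₀ l))
  rw [Metric.continuousAt_iff] at hc
  obtain ⟨η, hη, h⟩ := hc _ hpos
  refine ⟨η, hη, fun τ α ξ h1 h2 h3 => ?_⟩
  have h4 : dist (τ, α, ξ) (σ₀ v, σ₀ l, σ₀ l) < η := by
    rw [Prod.dist_eq, Prod.dist_eq]
    refine max_lt ?_ (max_lt ?_ ?_)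
    · rw [dist_eq_norm]; exact h1
    · rw [dist_eq_norm]; exact h2
    · rw [dist_eq_norm]; exact h3
  have h5 := h h4
  rw [dist_eq_norm, rc_Q_der] at h5
  have h6 : rc_Q σ₀ H τ α ξ = σ₀ ((H.map (evalRingHom v)).derivative.eval l) +
      (rc_Q σ₀ H τ α ξ - σ₀ ((H.map (evalRingHom v)).derivative.eval l)) := by ring
  rw [h6, IsUltrametricDist.norm_add_eq_max_of_norm_ne_norm h5.ne', max_eq_left h5.le]

theorem rc_min {F : Type} (Λ : Finset F) (f : F → ℝ) : (∀ l ∈ Λ, 0 < f l) →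
    ∃ η : ℝ, 0 < η ∧ ∀ l ∈ Λ, η ≤ f l := by
  classical
  induction Λ using Finset.induction_on with
  | empty => exact fun _ => ⟨1, one_pos, fun l hl => absurd hl (Finset.notMem_empty l)⟩
  | insert a s _ ih =>
    intro h
    obtain ⟨η, h1, h2⟩ := ih fun l hl => h l (Finset.mem_insert_of_mem hl)
    refine ⟨min η (f a), lt_min h1 (h a (Finset.mem_insert_self a s)), fun l hl => ?_⟩
    rcases Finset.mem_insert.1 hl with rfl | hl
    · exact min_le_right _ _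
    · exact (min_le_left _ _).trans (h2 l hl)

theorem rc_coeff {F K : Type} [Field F] [NormedField K] (σ₀ : F →+* K) (H : F[X][X]) (v : F)
    (δ : ℝ) (hδ : 0 < δ) : ∃ ε : ℝ, 0 < ε ∧ ∀ τ : K, ‖τ - σ₀ v‖ < ε → ∀ i : ℕ,
      ‖(H.coeff i).eval₂ σ₀ (σ₀ v) - (H.coeff i).eval₂ σ₀ τ‖ ≤ δ := by
  have h1 : ∀ i : ℕ, ∃ ε : ℝ, 0 < ε ∧ ∀ τ : K, ‖τ - σ₀ v‖ < ε →
      ‖(H.coeff i).eval₂ σ₀ (σ₀ v) - (H.coeff i).eval₂ σ₀ τ‖ ≤ δ := by
    intro i
    have hc := ((H.coeff i).continuous_eval₂ σ₀).continuousAt (x := σ₀ v)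
    rw [Metric.continuousAt_iff] at hc
    obtain ⟨ε, hε, h⟩ := hc δ hδ
    refine ⟨ε, hε, fun τ hτ => ?_⟩
    have h2 := h (x := τ) (by rw [dist_eq_norm]; exact hτ)
    rw [dist_eq_norm, norm_sub_rev] at h2
    exact h2.le
  choose ε hε hε' using h1
  obtain ⟨η, hη, hη'⟩ := rc_min (Finset.range (H.natDegree + 1)) ε fun i _ => hε i
  refine ⟨η, hη, fun τ hτ i => ?_⟩
  by_cases hi : i < H.natDegree + 1
  · exact hε' i τ (hτ.trans_le (hη' i (Finset.mem_range.2 hi)))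
  · rw [coeff_eq_zero_of_natDegree_lt (by omega), eval₂_zero, eval₂_zero, sub_zero, norm_zero]
    exact hδ.le

theorem st_RC (hO : ST_ORDP) : ST_RC := by
  classical
  intro F k _ _ _ _ t hG H v hsep hdeg hspl
  set P := H.map (evalRingHom v) with hP
  have hP0 : P ≠ 0 := hsep.ne_zero
  have hH0 : H ≠ 0 := by
    rintro rfl
    exact hP0 (by rw [hP, Polynomial.map_zero])
  -- the slopes
  have hκ : ∀ l : F, ∃ κ : F, H.eval (C l + C κ * (X - C v)) ≠ 0 := by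
    intro l
    by_contra hcon
    push Not at hcon
    refine hH0 (Polynomial.eq_zero_of_infinite_isRoot H ?_)
    refine Set.Infinite.mono (s := Set.range fun κ : F => C l + C κ * (X - C v)) ?_ ?_
    · rintro _ ⟨κ, rfl⟩
      exact hcon κ
    · refine Set.infinite_range_of_injective ?_
      intro κ κ' h
      have h1 : C κ * (X - C v) = C κ' * (X - C v) := add_left_cancel h
      exact C_injective (mul_right_cancel₀ (X_sub_C_ne_zero v) h1)
  choose κ hκ using hκ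
  set A : F → F[X] := fun l => H.eval (C l + C (κ l) * (X - C v)) with hA
  have hu : ∀ l : F, ∃ u : F, u ≠ 0 ∧ ∀ (p : ℕ) [Fact p.Prime] (σ₀ : F →+* ℂ_[p]),
      ∃ ε : ℝ, 0 < ε ∧ ∀ σ : k →+* ℂ_[p], (∀ a : F, σ (algebraMap F k a) = σ₀ a) →
        0 < ‖σ t - σ₀ v‖ → ‖σ t - σ₀ v‖ < ε →
        ‖σ (aeval t (A l))‖ = ‖σ₀ u‖ * ‖σ t - σ₀ v‖ ^ ((A l).rootMultiplicity v) :=
    fun l => hO F k t hG v (A l) (hκ l)
  choose u hu0 hu using hu
  obtain ⟨b, hb⟩ := Infinite.exists_notMem_finset P.roots.toFinset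
  refine ⟨P.roots.toFinset, b, fun l => aeval t (C l + C (κ l) * (X - C v)),
    fun l => (A l).rootMultiplicity v, ?_, ?_⟩
  · intro l hl
    rw [Polynomial.rootMultiplicity_pos (hκ l)]
    have h1 : P.eval l = 0 := (mem_roots'.1 (Multiset.mem_toFinset.1 hl)).2
    have h2 : P.eval l = (evalRingHom v) (H.eval (C l + C (κ l) * (X - C v))) := by
      rw [hP, eval_map, ← eval₂_at_apply]
      congr 1
      simp
    rw [h2] at h1
    exact h1
  · intro p _ σ₀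
    set τ₀ : ℂ_[p] := σ₀ v with hτ₀
    have hder : ∀ l ∈ P.roots.toFinset, P.derivative.eval l ≠ 0 := by
      intro l hl
      have h1 : P.eval₂ (RingHom.id F) l = 0 := (mem_roots'.1 (Multiset.mem_toFinset.1 hl)).2
      exact hsep.eval₂_derivative_ne_zero (RingHom.id F) h1
    have hd0 : ∀ l ∈ P.roots.toFinset, 0 < ‖σ₀ (P.derivative.eval l)‖ := by
      intro l hl
      rw [norm_pos_iff]
      exact fun h => hder l hl ((map_eq_zero σ₀).1 h)
    have hu0' : ∀ l, 0 < ‖σ₀ (u l)‖ := by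
      intro l
      rw [norm_pos_iff]
      exact fun h => hu0 l ((map_eq_zero σ₀).1 h)
    have hb0 : ∀ l ∈ P.roots.toFinset, 0 < ‖σ₀ l - σ₀ b‖ := by
      intro l hl
      rw [norm_pos_iff, sub_ne_zero]
      intro h
      exact hb (by rw [← σ₀.injective h]; exact hl)
    have hQ : ∀ l : F, ∃ η : ℝ, 0 < η ∧ (l ∈ P.roots.toFinset → ∀ τ α ξ : ℂ_[p],
        ‖τ - σ₀ v‖ < η → ‖α - σ₀ l‖ < η → ‖ξ - σ₀ l‖ < η →
        ‖rc_Q σ₀ H τ α ξ‖ = ‖σ₀ (P.derivative.eval l)‖) := by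
      intro l
      by_cases hl : l ∈ P.roots.toFinset
      · obtain ⟨η, h1, h2⟩ := rc_Q_near σ₀ H v l (hder l hl)
        exact ⟨η, h1, fun _ => h2⟩
      · exact ⟨1, one_pos, fun h => absurd h hl⟩
    choose η₀ hη₀ hQ using hQ
    obtain ⟨η₁, hη₁, hη₁'⟩ := rc_min P.roots.toFinset (fun l => min (η₀ l) ‖σ₀ l - σ₀ b‖)
      (fun l hl => lt_min (hη₀ l) (hb0 l hl))
    obtain ⟨δ, hδ, hnear⟩ := rc_near σ₀ P hspl hP0 η₁ hη₁
    obtain ⟨ε₁, hε₁, hε₁'⟩ := rc_coeff σ₀ H v δ hδ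
    choose εu hεu hεu' using fun l => hu l p σ₀
    obtain ⟨ε₂, hε₂, hε₂'⟩ := rc_min P.roots.toFinset
      (fun l => min (εu l) (η₁ / (1 + ‖σ₀ (κ l)‖)))
      (fun l _ => lt_min (hεu l) (by positivity))
    refine ⟨fun l => ‖σ₀ (u l)‖ / ‖σ₀ (P.derivative.eval l)‖, fun l => ‖σ₀ l - σ₀ b‖,
      min (min ε₁ ε₂) η₁, lt_min (lt_min hε₁ hε₂) hη₁, ?_, ?_⟩
    · intro l hl
      exact ⟨div_pos (hu0' l) (hd0 l hl), hb0 l hl⟩
    · intro σ hσ hpos hlt ξ hξ
      have hlt₁ : ‖σ t - σ₀ v‖ < ε₁ := hlt.trans_le ((min_le_left _ _).trans (min_le_left _ _))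
      have hlt₂ : ‖σ t - σ₀ v‖ < ε₂ := hlt.trans_le ((min_le_left _ _).trans (min_le_right _ _))
      have hlt₃ : ‖σ t - σ₀ v‖ < η₁ := hlt.trans_le (min_le_right _ _)
      set φ : F[X] →+* ℂ_[p] := σ.comp (aeval t).toRingHom with hφ
      have hφe : ∀ h : F[X], φ h = h.eval₂ σ₀ (σ t) := by
        intro h
        have h1 : σ.comp (algebraMap F k) = σ₀ := RingHom.ext hσ
        change σ (aeval t h) = _
        rw [aeval_def, hom_eval₂, h1]
      have hsum : ∀ x : ℂ_[p], H.eval₂ φ x =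
          ∑ i ∈ Finset.range (H.natDegree + 1), (H.coeff i).eval₂ σ₀ (σ t) * x ^ i := by
        intro x
        rw [eval₂_eq_sum_range]
        refine Finset.sum_congr rfl fun i _ => ?_
        rw [hφe]
      have hP' : P.eval₂ σ₀ ξ = ∑ i ∈ Finset.range (P.natDegree + 1),
          ((H.coeff i).eval₂ σ₀ (σ₀ v) - (H.coeff i).eval₂ σ₀ (σ t)) * ξ ^ i := by
        have h1 : P.eval₂ σ₀ ξ = ∑ i ∈ Finset.range (H.natDegree + 1),
            (H.coeff i).eval₂ σ₀ (σ₀ v) * ξ ^ i := by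
          rw [eval₂_eq_sum_range, hdeg]
          refine Finset.sum_congr rfl fun i _ => ?_
          rw [hP, rc_coe, eval₂_at_apply]
        have h2 := hsum ξ
        rw [hξ] at h2
        rw [h1, hdeg]
        have h3 : ∀ i, ((H.coeff i).eval₂ σ₀ (σ₀ v) - (H.coeff i).eval₂ σ₀ (σ t)) * ξ ^ i =
            (H.coeff i).eval₂ σ₀ (σ₀ v) * ξ ^ i - (H.coeff i).eval₂ σ₀ (σ t) * ξ ^ i :=
          fun i => sub_mul _ _ _
        simp only [h3]
        rw [Finset.sum_sub_distrib, ← h2, sub_zero]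
      obtain ⟨l, hl, hξl⟩ := hnear _ ξ (hε₁' (σ t) hlt₁) hP'
      have hl' : l ∈ P.roots.toFinset := Multiset.mem_toFinset.2 hl
      have hq : σ (aeval t (C l + C (κ l) * (X - C v))) = σ₀ l + σ₀ (κ l) * (σ t - σ₀ v) := by
        simp only [map_add, map_mul, map_sub, aeval_C, aeval_X, hσ]
      have hα : ‖σ (aeval t (C l + C (κ l) * (X - C v))) - σ₀ l‖ < η₁ := by
        rw [hq, add_sub_cancel_left, norm_mul]
        have h1 : ‖σ t - σ₀ v‖ < η₁ / (1 + ‖σ₀ (κ l)‖) :=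
          hlt₂.trans_le ((hε₂' l hl').trans (min_le_right _ _))
        have h2 : 0 < 1 + ‖σ₀ (κ l)‖ := by positivity
        rw [lt_div_iff₀ h2] at h1
        nlinarith [norm_nonneg (σ₀ (κ l)), norm_nonneg (σ t - σ₀ v)]
      have hη₂ : η₁ ≤ η₀ l := (hη₁' l hl').trans (min_le_left _ _)
      have hη₃ : η₁ ≤ ‖σ₀ l - σ₀ b‖ := (hη₁' l hl').trans (min_le_right _ _)
      have h1 := hQ l hl' (σ t) (σ (aeval t (C l + C (κ l) * (X - C v)))) ξ
        (hlt₃.trans_le hη₂) (hα.trans_le hη₂) (hξl.trans_le hη₂)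
      have h2 := rc_Q_mul σ₀ H (σ t) (σ (aeval t (C l + C (κ l) * (X - C v)))) ξ
      rw [← hsum, ← hsum, hξ, sub_zero] at h2
      have h3 : H.eval₂ φ (σ (aeval t (C l + C (κ l) * (X - C v)))) = σ (aeval t (A l)) :=
        eval₂_at_apply φ (C l + C (κ l) * (X - C v))
      rw [h3] at h2
      have h4 := hεu' l σ hσ hpos (hlt₂.trans_le ((hε₂' l hl').trans (min_le_left _ _)))
      have h5 := congrArg norm h2
      rw [norm_mul, h1, h4] at h5
      refine ⟨l, hl', ?_, ?_⟩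
      · have h6 := hd0 l hl'
        change ‖ξ - σ (aeval t (C l + C (κ l) * (X - C v)))‖ =
          ‖σ₀ (u l)‖ / ‖σ₀ (P.derivative.eval l)‖ * ‖σ t - σ₀ v‖ ^ ((A l).rootMultiplicity v)
        rw [norm_sub_rev, div_mul_eq_mul_div, eq_div_iff h6.ne', mul_comm]
        exact h5
      · change ‖ξ - σ₀ b‖ = ‖σ₀ l - σ₀ b‖
        have h6 : ‖ξ - σ₀ l‖ < ‖σ₀ l - σ₀ b‖ := hξl.trans_le hη₃
        have h7 : ξ - σ₀ b = (ξ - σ₀ l) + (σ₀ l - σ₀ b) := by ring
        rw [h7, IsUltrametricDist.norm_add_eq_max_of_norm_ne_norm h6.ne, max_eq_right h6.le]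

end Pool.Agent.Helper22.TW
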