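import Pool.Agent.Helper22.TW.Stmts

set_option autoImplicit false

namespace Pool.Agent.Helper22.TW

open Pool.Agent.Helper14.BSC Polynomial

/-- finitely generated fields over `ℚ` are countable -/
theorem tra_countable (F : Type) [Field F] [CharZero F] (h : (⊤ : IntermediateField ℚ F).FG) :
    Countable F := by
  obtain ⟨S, hS⟩ := h
  have h1 := IntermediateField.cardinalMk_adjoin_le (F := ℚ) (E := F) (S : Set F)
  rw [hS] at h1
  have h2 : Cardinal.mk (S : Set F) ≤ Cardinal.aleph0 := by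
    have : Countable (S : Set F) := inferInstance
    exact Cardinal.mk_le_aleph0
  have h3 : Cardinal.mk ℚ ≤ Cardinal.aleph0 := Cardinal.mk_le_aleph0
  have h4 : Cardinal.mk (⊤ : IntermediateField ℚ F) ≤ Cardinal.aleph0 :=
    h1.trans (sup_le (sup_le h3 h2) le_rfl)
  have h5 : Countable (⊤ : IntermediateField ℚ F) := Cardinal.mk_le_aleph0_iff.1 h4
  exact (IntermediateField.topEquiv (F := ℚ) (E := F)).symm.injective.countable

theorem tra_poly (F : Type) [Field F] [Countable F] : Countable F[X] := by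
  rw [← Cardinal.mk_le_aleph0_iff]
  refine (Polynomial.cardinalMk_le_max).trans (max_le ?_ le_rfl)
  exact Cardinal.mk_le_aleph0

theorem tra_alg (F K : Type) [Field F] [Field K] [Countable F] (σ₀ : F →+* K) :
    {τ : K | ∃ G : F[X], G ≠ 0 ∧ G.eval₂ σ₀ τ = 0}.Countable := by
  classical
  have : Countable F[X] := tra_poly F
  have h1 : {τ : K | ∃ G : F[X], G ≠ 0 ∧ G.eval₂ σ₀ τ = 0} ⊆
      ⋃ G : F[X], ((G.map σ₀).roots.toFinset : Set K) := by
    rintro τ ⟨G, hG, h⟩
    refine Set.mem_iUnion.2 ⟨G, ?_⟩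
    rw [Finset.mem_coe, Multiset.mem_toFinset, mem_roots']
    refine ⟨by rwa [Ne, Polynomial.map_eq_zero], ?_⟩
    rw [IsRoot.def, eval_map]
    exact h
  exact (Set.countable_iUnion fun G => (Finset.countable_toSet _)).mono h1

theorem st_TRA : ST_TRA := by
  intro F _ _ hF p _ σ₀ E α z hα hz hz0 A hA
  have : Countable F := tra_countable F hF
  have h1 : (A ∪ {τ : ℂ_[p] | ∃ G : F[X], G ≠ 0 ∧ G.eval₂ σ₀ τ = 0}).Countable :=
    hA.union (tra_alg F ℂ_[p] σ₀)
  have h2 : Function.Injective fun s : ℚ_[p] => α + z * algebraMap ℚ_[p] ℂ_[p] s := by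
    intro s s' h
    exact (algebraMap ℚ_[p] ℂ_[p]).injective (mul_left_cancel₀ hz0 (add_left_cancel h))
  have h3 := h1.preimage_of_injOn (f := fun s : ℚ_[p] => α + z * algebraMap ℚ_[p] ℂ_[p] s)
    h2.injOn
  have h4 := Set.Countable.dense_compl (E := ℚ_[p]) ℚ_[p] h3
  obtain ⟨s, hs, hs1⟩ := h4.exists_dist_lt 1 (show (0 : ℝ) < 1 from one_pos)
  rw [dist_comm, dist_eq_norm] at hs1
  have hs2 : ‖s‖ = 1 := by
    have h5 : s = 1 + (s - 1) := by ring
    rw [h5, IsUltrametricDist.norm_add_eq_max_of_norm_ne_norm, norm_one, max_eq_left hs1.le]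
    rw [norm_one]
    exact hs1.ne'
  refine ⟨α + z * algebraMap ℚ_[p] ℂ_[p] s, E.add_mem hα (E.mul_mem hz (E.algebraMap_mem s)),
    fun h => hs (Or.inl h), ?_, ?_⟩
  · rw [add_sub_cancel_left, norm_mul, norm_algebraMap', hs2, mul_one]
  · intro G hG h
    exact hs (Or.inr ⟨G, hG, h⟩)

end Pool.Agent.Helper22.TW
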